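import Mathlib

/-!
Set-family and analytic lemmas used for the reliability roots of paving matroids.
-/

open Finset

namespace Pool.Agent.LibPavingRoots

/-- the Brown-Colbourn bound -/
def B : ℕ → ℕ → ℕ
  | 0, r => r / 2 + 1
  | (_ + 1), 0 => 1
  | (D + 1), (r + 1) => B (D + 1) r + B D (r + 1)

lemma B_succ (D r : ℕ) : B (D+1) (r+1) = B (D+1) r + B D (r+1) := by rw [B]

section Family

variable {α : Type*} [DecidableEq α]

/-- Abstract properties of the family of dependent `r`-subsets of a paving matroid of rank `r`. -/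
structure Fam (E : Finset α) (r : ℕ) (F : Finset (Finset α)) : Prop where
  sub : ∀ A ∈ F, A ⊆ E ∧ A.card = r
  ex : ∀ A ∈ F, ∀ B ∈ F, (A ∪ B).card = r + 1 → ∀ C ⊆ A ∪ B, C.card = r → C ∈ F

/-- no coloops -/
def CF (E : Finset α) (r : ℕ) (F : Finset (Finset α)) : Prop :=
  ∀ e ∈ E, ∃ A ⊆ E.erase e, A.card = r ∧ A ∉ F

lemma chain_aux {E : Finset α} {r : ℕ} {F : Finset (Finset α)} (hF : Fam E (r+1) F)
    {H : Finset α} (hH : ∀ C ⊆ H, C.card = r + 1 → C ∈ F) {x : α} (hx : x ∉ H) :
    ∀ n : ℕ, ∀ C D : Finset α, C ⊆ H → D ⊆ H → C.card = r → D.card = r → (D \ C).card = n →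
      insert x C ∈ F → insert x D ∈ F := by
  intro n
  induction n with
  | zero =>
    intro C D hC hD hCc hDc h0 hxC
    have h1 : D ⊆ C := by
      rw [Finset.card_eq_zero] at h0
      exact Finset.sdiff_eq_empty_iff_subset.mp h0
    have h2 : D = C := Finset.eq_of_subset_of_card_le h1 (by omega)
    rw [h2]; exact hxC
  | succ n ih =>
    intro C D hC hD hCc hDc hn hxC
    have hpos : 0 < (D \ C).card := by omega
    obtain ⟨v, hv⟩ := Finset.card_pos.mp hpos
    have hcc : (C \ D).card = (D \ C).card := by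
      have h1 := Finset.card_sdiff_add_card_inter C D
      have h2 := Finset.card_sdiff_add_card_inter D C
      rw [Finset.inter_comm] at h2
      omega
    have hpos2 : 0 < (C \ D).card := by omega
    obtain ⟨u, hu⟩ := Finset.card_pos.mp hpos2
    rw [Finset.mem_sdiff] at hu hv
    have hxC' : x ∉ C := fun h => hx (hC h)
    have hvx : v ≠ x := fun h => hx (h ▸ hD hv.1)
    have hux : u ≠ x := fun h => hx (h ▸ hC hu.1)
    have huv : u ≠ v := fun h => hv.2 (h ▸ hu.1)
    have hvC : insert v C ∈ F := by
      apply hH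
      · intro y hy
        rw [Finset.mem_insert] at hy
        rcases hy with rfl | hy
        · exact hD hv.1
        · exact hC hy
      · rw [Finset.card_insert_of_notMem hv.2, hCc]
    have hun : (insert x C ∪ insert v C) = insert x (insert v C) := by
      ext y; simp only [Finset.mem_union, Finset.mem_insert]; tauto
    have hcardun : (insert x C ∪ insert v C).card = (r + 1) + 1 := by
      rw [hun, Finset.card_insert_of_notMem, Finset.card_insert_of_notMem hv.2, hCc]
      rw [Finset.mem_insert]; push Not; exact ⟨hvx.symm, hxC'⟩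
    have hC'card : (insert v (C.erase u)).card = r := by
      rw [Finset.card_insert_of_notMem, Finset.card_erase_of_mem hu.1, hCc]
      · have : 0 < C.card := Finset.card_pos.mpr ⟨u, hu.1⟩
        omega
      · rw [Finset.mem_erase]; push Not; intro _; exact hv.2
    have hC'sub : insert v (C.erase u) ⊆ H := by
      intro y hy
      rw [Finset.mem_insert, Finset.mem_erase] at hy
      rcases hy with rfl | hy
      · exact hD hv.1
      · exact hC hy.2
    have hnew : insert x (insert v (C.erase u)) ∈ F := by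
      apply hF.ex _ hxC _ hvC hcardun
      · rw [hun]
        intro y hy
        simp only [Finset.mem_insert, Finset.mem_erase] at hy ⊢
        tauto
      · rw [Finset.card_insert_of_notMem, hC'card]
        intro h; exact hx (hC'sub h)
    apply ih (insert v (C.erase u)) D hC'sub hD hC'card hDc _ hnew
    have : D \ insert v (C.erase u) = (D \ C).erase v := by
      ext y
      simp only [Finset.mem_sdiff, Finset.mem_insert, Finset.mem_erase]
      constructor
      · rintro ⟨h1, h2⟩
        push Not at h2
        refine ⟨h2.1, h1, fun hyC => ?_⟩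
        have := h2.2
        by_cases hyu : y = u
        · subst hyu; exact hu.2 h1
        · exact (h2.2 hyu) hyC
      · rintro ⟨h1, h2, h3⟩
        refine ⟨h2, ?_⟩
        push Not
        exact ⟨h1, fun _ => h3⟩
    rw [this, Finset.card_erase_of_mem (by rw [Finset.mem_sdiff]; exact hv), hn]
    omega

lemma chain {E : Finset α} {r : ℕ} {F : Finset (Finset α)} (hF : Fam E (r+1) F)
    {H : Finset α} (hH : ∀ C ⊆ H, C.card = r + 1 → C ∈ F) {x : α} (hx : x ∉ H)
    {C : Finset α} (hC : C ⊆ H) (hCc : C.card = r) (hxC : insert x C ∈ F) :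
    ∀ A ⊆ insert x H, A.card = r + 1 → A ∈ F := by
  intro A hA hAc
  by_cases hxA : x ∈ A
  · have hD : A.erase x ⊆ H := by
      intro y hy
      rw [Finset.mem_erase] at hy
      have := hA hy.2
      rw [Finset.mem_insert] at this
      exact this.resolve_left hy.1
    have hDc : (A.erase x).card = r := by
      rw [Finset.card_erase_of_mem hxA, hAc]; omega
    have := chain_aux hF hH hx _ C (A.erase x) hC hD hCc hDc rfl hxC
    rwa [Finset.insert_erase hxA] at this
  · apply hH _ _ hAc
    intro y hy
    have := hA hy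
    rw [Finset.mem_insert] at this
    rcases this with rfl | h
    · exact absurd hy hxA
    · exact h


lemma del_fam {E : Finset α} {r : ℕ} {F : Finset (Finset α)} (hF : Fam E r F) (e : α) :
    Fam (E.erase e) r (F.filter (fun A => e ∉ A)) := by
  constructor
  · intro A hA
    rw [Finset.mem_filter] at hA
    obtain ⟨h1, h2⟩ := hF.sub A hA.1
    refine ⟨fun y hy => ?_, h2⟩
    rw [Finset.mem_erase]
    exact ⟨fun h => hA.2 (h ▸ hy), h1 hy⟩
  · intro A hA B hB hAB C hC hCc
    rw [Finset.mem_filter] at hA hB ⊢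
    refine ⟨hF.ex A hA.1 B hB.1 hAB C hC hCc, fun h => ?_⟩
    have := hC h
    rw [Finset.mem_union] at this
    tauto

lemma con_fam {E : Finset α} {r : ℕ} {F : Finset (Finset α)} (hF : Fam E (r+1) F) (e : α) :
    Fam (E.erase e) r ((F.filter (fun A => e ∈ A)).image (fun A => A.erase e)) := by
  constructor
  · intro A hA
    rw [Finset.mem_image] at hA
    obtain ⟨A', hA', rfl⟩ := hA
    rw [Finset.mem_filter] at hA'
    obtain ⟨h1, h2⟩ := hF.sub A' hA'.1
    refine ⟨Finset.erase_subset_erase _ h1, ?_⟩
    rw [Finset.card_erase_of_mem hA'.2, h2]; omega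
  · intro A hA B hB hAB C hC hCc
    rw [Finset.mem_image] at hA hB ⊢
    obtain ⟨A', hA', rfl⟩ := hA
    obtain ⟨B', hB', rfl⟩ := hB
    rw [Finset.mem_filter] at hA' hB'
    have heC : e ∉ C := by
      intro h
      have := hC h
      simp at this
    refine ⟨insert e C, ?_, Finset.erase_insert heC⟩
    rw [Finset.mem_filter]
    refine ⟨?_, Finset.mem_insert_self _ _⟩
    have hun : A' ∪ B' = insert e (A'.erase e ∪ B'.erase e) := by
      ext y
      simp only [Finset.mem_union, Finset.mem_insert, Finset.mem_erase]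
      by_cases hy : y = e
      · subst hy; simp [hA'.2]
      · simp [hy]
    apply hF.ex A' hA'.1 B' hB'.1
    · rw [hun, Finset.card_insert_of_notMem, hAB]
      simp
    · rw [hun]; exact Finset.insert_subset_insert _ hC
    · rw [Finset.card_insert_of_notMem heC, hCc]

lemma con_card {F : Finset (Finset α)} (e : α) :
    ((F.filter (fun A => e ∈ A)).image (fun A => A.erase e)).card = (F.filter (fun A => e ∈ A)).card := by
  apply Finset.card_image_of_injOn
  intro A hA B hB h
  simp only [Finset.coe_filter, Set.mem_ofPred_eq] at hA hB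
  simp only at h
  rw [← Finset.insert_erase hA.2, ← Finset.insert_erase hB.2, h]

lemma base_bound {E : Finset α} {r : ℕ} {F : Finset (Finset α)} (hF : Fam E r F) (hcf : CF E r F)
    (hE : E.card = r + 2) : F.card ≤ r / 2 + 1 := by
  have hdisj : ∀ A ∈ F, ∀ B ∈ F, A ≠ B → Disjoint (E \ A) (E \ B) := by
    intro A hA B hB hAB
    rw [Finset.disjoint_left]
    intro e he1 he2
    rw [Finset.mem_sdiff] at he1 he2
    obtain ⟨hAs, hAc⟩ := hF.sub A hA
    obtain ⟨hBs, hBc⟩ := hF.sub B hB
    have hsub : A ∪ B ⊆ E.erase e := by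
      intro y hy
      rw [Finset.mem_erase]
      rw [Finset.mem_union] at hy
      constructor
      · rintro rfl
        rcases hy with hy | hy
        · exact he1.2 hy
        · exact he2.2 hy
      · rcases hy with hy | hy
        · exact hAs hy
        · exact hBs hy
    have hle : (A ∪ B).card ≤ r + 1 := by
      have := Finset.card_le_card hsub
      rw [Finset.card_erase_of_mem he1.1, hE] at this
      omega
    have hge : r + 1 ≤ (A ∪ B).card := by
      by_contra hlt
      push Not at hlt
      have h1 : A = A ∪ B := Finset.eq_of_subset_of_card_le Finset.subset_union_left (by omega)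
      have h2 : B = A ∪ B := Finset.eq_of_subset_of_card_le Finset.subset_union_right (by omega)
      exact hAB (h1.trans h2.symm)
    have hcard : (A ∪ B).card = r + 1 := le_antisymm hle hge
    have heq : A ∪ B = E.erase e := Finset.eq_of_subset_of_card_le hsub (by
      rw [Finset.card_erase_of_mem he1.1, hE, hcard]; omega)
    obtain ⟨C, hC, hCc, hCF⟩ := hcf e he1.1
    exact hCF (hF.ex A hA B hB hcard C (heq ▸ hC) hCc)
  have h1 : (F.biUnion (fun A => E \ A)).card = ∑ A ∈ F, (E \ A).card := by
    apply Finset.card_biUnion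
    intro A hA B hB hAB
    exact hdisj A hA B hB hAB
  have h2 : ∑ A ∈ F, (E \ A).card = ∑ A ∈ F, 2 := by
    apply Finset.sum_congr rfl
    intro A hA
    obtain ⟨hAs, hAc⟩ := hF.sub A hA
    rw [Finset.card_sdiff_of_subset hAs, hE, hAc]; omega
  have h3 : (F.biUnion (fun A => E \ A)).card ≤ E.card := by
    apply Finset.card_le_card
    intro y hy
    rw [Finset.mem_biUnion] at hy
    obtain ⟨A, _, hy⟩ := hy
    exact (Finset.mem_sdiff.mp hy).1
  rw [h1, h2, Finset.sum_const, smul_eq_mul, hE] at h3
  omega

lemma exists_good {E : Finset α} {r D : ℕ} {F : Finset (Finset α)} (hF : Fam E (r+1) F)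
    (hcf : CF E (r+1) F) (hE : E.card = (r+1) + (D+3)) :
    ∃ e ∈ E, ∀ f ∈ E.erase e, ∃ A ⊆ (E.erase e).erase f, A.card = r + 1 ∧ A ∉ F := by
  by_contra hcon
  push Not at hcon
  have hEpos : 0 < E.card := by omega
  obtain ⟨e0, he0⟩ := Finset.card_pos.mp hEpos
  obtain ⟨f0, hf0, hH0⟩ := hcon e0 he0
  have hHcard : ((E.erase e0).erase f0).card = r + D + 2 := by
    rw [Finset.card_erase_of_mem hf0, Finset.card_erase_of_mem he0, hE]; omega
  obtain ⟨e1, he1⟩ := Finset.card_pos.mp (show 0 < ((E.erase e0).erase f0).card by omega)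
  have he1E : e1 ∈ E := by
    rw [Finset.mem_erase, Finset.mem_erase] at he1; exact he1.2.2
  obtain ⟨f1, hf1, hH1⟩ := hcon e1 he1E
  have hHcard' : ((E.erase e1).erase f1).card = r + D + 2 := by
    rw [Finset.card_erase_of_mem hf1, Finset.card_erase_of_mem he1E, hE]; omega
  set H := (E.erase e0).erase f0 with hHdef
  set H' := (E.erase e1).erase f1 with hH'def
  have hne : ¬ (H' ⊆ H) := by
    intro hsub
    have : H' = H := Finset.eq_of_subset_of_card_le hsub (by omega)
    rw [← this, hH'def] at he1
    simp at he1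
  obtain ⟨x, hx1, hx2⟩ := Finset.not_subset.mp hne
  have hxE : x ∈ E := by
    rw [hH'def, Finset.mem_erase, Finset.mem_erase] at hx1; exact hx1.2.2
  have hint : r ≤ (H ∩ H').card := by
    have h1 := Finset.card_union_add_card_inter H H'
    have h2 : (H ∪ H').card ≤ E.card := by
      apply Finset.card_le_card
      intro y hy
      rw [Finset.mem_union] at hy
      rcases hy with hy | hy
      · rw [hHdef, Finset.mem_erase, Finset.mem_erase] at hy; exact hy.2.2
      · rw [hH'def, Finset.mem_erase, Finset.mem_erase] at hy; exact hy.2.2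
    omega
  obtain ⟨C, hCsub, hCc⟩ := Finset.exists_subset_card_eq hint
  have hCH : C ⊆ H := hCsub.trans Finset.inter_subset_left
  have hCH' : C ⊆ H' := hCsub.trans Finset.inter_subset_right
  have hxC : insert x C ∈ F := by
    apply hH1
    · intro y hy
      rw [Finset.mem_insert] at hy
      rcases hy with rfl | hy
      · exact hx1
      · exact hCH' hy
    · rw [Finset.card_insert_of_notMem, hCc]
      intro h; exact hx2 (hCH h)
  have hcomp := chain hF hH0 hx2 hCH hCc hxC
  have hx3 : x = e0 ∨ x = f0 := by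
    by_contra hcon2
    push Not at hcon2
    apply hx2
    rw [hHdef, Finset.mem_erase, Finset.mem_erase]
    exact ⟨hcon2.2, hcon2.1, hxE⟩
  rcases hx3 with rfl | rfl
  · -- x = e0 : insert e0 H = E.erase f0
    have hf0E : f0 ∈ E := (Finset.mem_erase.mp hf0).2
    obtain ⟨A, hA, hAc, hAF⟩ := hcf f0 hf0E
    apply hAF
    apply hcomp A _ hAc
    intro y hy
    have := hA hy
    rw [Finset.mem_erase] at this
    rw [Finset.mem_insert, hHdef, Finset.mem_erase, Finset.mem_erase]
    by_cases hyx : y = x
    · left; exact hyx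
    · right; exact ⟨this.1, hyx, this.2⟩
  · obtain ⟨A, hA, hAc, hAF⟩ := hcf e0 he0
    apply hAF
    apply hcomp A _ hAc
    intro y hy
    have := hA hy
    rw [Finset.mem_erase] at this
    rw [Finset.mem_insert, hHdef, Finset.mem_erase, Finset.mem_erase]
    by_cases hyx : y = x
    · left; exact hyx
    · right; exact ⟨hyx, this.1, this.2⟩

theorem fam_bound : ∀ (D r : ℕ) (E : Finset α) (F : Finset (Finset α)), E.card = r + (D + 2) →
    Fam E r F → CF E r F → F.card ≤ B D r := by
  intro D
  induction D with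
  | zero =>
    intro r E F hE hF hcf
    rw [B]
    exact base_bound hF hcf (by omega)
  | succ D ihD =>
    intro r
    induction r with
    | zero =>
      intro E F hE hF hcf
      have hsub : F ⊆ {∅} := by
        intro A hA
        rw [Finset.mem_singleton]
        exact Finset.card_eq_zero.mp (hF.sub A hA).2
      have := Finset.card_le_card hsub
      rw [Finset.card_singleton] at this
      unfold B; exact this
    | succ r ihr =>
      intro E F hE hF hcf
      obtain ⟨e, heE, hgood⟩ := exists_good (D := D) hF hcf (by omega)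
      have hEe : (E.erase e).card = r + (D + 1 + 2) := by
        rw [Finset.card_erase_of_mem heE, hE]; omega
      have hdel : (F.filter (fun A => e ∉ A)).card ≤ B D (r+1) := by
        apply ihD (r+1) (E.erase e) _ (by omega) (del_fam hF e)
        intro f hf
        obtain ⟨A, hA, hAc, hAF⟩ := hgood f hf
        exact ⟨A, hA, hAc, fun h => hAF (Finset.mem_filter.mp h).1⟩
      have hcon : (F.filter (fun A => e ∈ A)).card ≤ B (D+1) r := by
        rw [← con_card e]
        rcases Nat.eq_zero_or_pos r with hr | hr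
        · subst hr
          have hfam := con_fam hF e
          have hsub : ((F.filter (fun A => e ∈ A)).image (fun A => A.erase e)) ⊆ {∅} := by
            intro A hA
            rw [Finset.mem_singleton]
            exact Finset.card_eq_zero.mp (hfam.sub A hA).2
          have := Finset.card_le_card hsub
          rw [Finset.card_singleton] at this
          unfold B; exact this
        · apply ihr (E.erase e) _ hEe (con_fam hF e)
          intro f hf
          by_contra hcon
          push Not at hcon
          have hfE : f ∈ E := (Finset.mem_erase.mp hf).2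
          obtain ⟨A, hA, hAc, hAF⟩ := hcf f hfE
          have key : ∀ A' ⊆ E.erase f, A'.card = r + 1 → e ∈ A' → A' ∈ F := by
            intro A' hA' hA'c heA'
            have h1 := hcon (A'.erase e) (by
              intro y hy
              rw [Finset.mem_erase] at hy
              have := hA' hy.2
              rw [Finset.mem_erase] at this
              rw [Finset.mem_erase, Finset.mem_erase]
              exact ⟨this.1, hy.1, this.2⟩) (by
              rw [Finset.card_erase_of_mem heA', hA'c]; omega)
            rw [Finset.mem_image] at h1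
            obtain ⟨A'', hA'', heq⟩ := h1
            rw [Finset.mem_filter] at hA''
            have : A'' = A' := by
              rw [← Finset.insert_erase hA''.2, ← Finset.insert_erase heA', heq]
            rw [← this]; exact hA''.1
          have heA : e ∉ A := fun h => hAF (key A hA hAc h)
          have h2 : 1 < A.card := by omega
          obtain ⟨x, hx, y, hy, hxy⟩ := Finset.one_lt_card.mp h2
          have hfe : e ≠ f := fun h => by
            rw [← h] at hf; simp at hf
          have hmem : ∀ z ∈ A, insert e (A.erase z) ∈ F := by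
            intro z hz
            apply key
            · intro w hw
              rw [Finset.mem_insert, Finset.mem_erase] at hw
              rcases hw with rfl | hw
              · rw [Finset.mem_erase]; exact ⟨hfe, heE⟩
              · exact hA hw.2
            · rw [Finset.card_insert_of_notMem, Finset.card_erase_of_mem hz, hAc]
              · omega
              · intro h; exact heA (Finset.mem_erase.mp h).2
            · exact Finset.mem_insert_self _ _
          have hun : insert e (A.erase x) ∪ insert e (A.erase y) = insert e A := by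
            ext w
            simp only [Finset.mem_union, Finset.mem_insert, Finset.mem_erase]
            constructor
            · rintro ((h | h) | (h | h))
              · left; exact h
              · right; exact h.2
              · left; exact h
              · right; exact h.2
            · rintro (h | h)
              · left; left; exact h
              · by_cases hwx : w = x
                · right; right; refine ⟨?_, h⟩
                  rw [hwx]; exact hxy
                · left; right; exact ⟨hwx, h⟩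
          apply hAF
          apply hF.ex _ (hmem x hx) _ (hmem y hy)
          · rw [hun, Finset.card_insert_of_notMem heA, hAc]
          · rw [hun]; exact Finset.subset_insert _ _
          · exact hAc
      have hsplit : F.card = (F.filter (fun A => e ∈ A)).card + (F.filter (fun A => e ∉ A)).card := by
        rw [Finset.card_filter_add_card_filter_not]
      rw [hsplit]
      unfold B
      omega

end Family

section Analysis

/-- reversed H-polynomials of uniform matroids -/
def GG {R : Type*} [CommRing R] : ℕ → ℕ → R → R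
  | 0, r, x => ∑ j ∈ range (r + 1), x ^ j
  | (_ + 1), 0, _ => 1
  | (n + 1), (r + 1), x => GG (n + 1) r x + GG n (r + 1) x

lemma GG_succ {R : Type*} [CommRing R] (n r : ℕ) (x : R) :
    GG (n+1) (r+1) x = GG (n+1) r x + GG n (r+1) x := by rw [GG]

lemma GG_zero_right {R : Type*} [CommRing R] (n : ℕ) (x : R) : GG n 0 x = 1 := by
  cases n with
  | zero => simp [GG]
  | succ n => simp [GG]

lemma GG_cast (n r : ℕ) (x : ℝ) : ((GG n r x : ℝ) : ℂ) = GG n r (x : ℂ) := by
  induction n generalizing r with
  | zero => simp [GG]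
  | succ n ih =>
    induction r with
    | zero => simp [GG]
    | succ r ihr => simp [GG, ih, ihr]

lemma geom_mul (r : ℕ) {R : Type*} [CommRing R] (x : R) :
    (1 - x) * (∑ j ∈ range (r + 1), x ^ j) = 1 - x ^ (r + 1) := by
  have := geom_sum_mul x (r+1)
  linear_combination -this

lemma real_base (x : ℝ) (h1 : -1 < x) (h2 : x < 1) :
    ∀ r : ℕ, ((B 0 (r+1) : ℕ) : ℝ) < GG 1 (r+1) x := by
  have hS : ∀ r : ℕ, 1 < (∑ j ∈ range (r + 2), x ^ j) + (∑ j ∈ range (r + 3), x ^ j) := by
    intro r
    have e1 := geom_mul (r+1) x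
    have e2 := geom_mul (r+2) x
    have hpow : x ^ (r + 2) < 1 := by
      calc x ^ (r+2) ≤ |x ^ (r+2)| := le_abs_self _
        _ = |x| ^ (r+2) := abs_pow _ _
        _ < 1 := pow_lt_one₀ (abs_nonneg _) (abs_lt.mpr ⟨h1, h2⟩) (by omega)
    have hpos : 0 < 1 - x := by linarith
    have h3 : 0 < (1 + x) * (1 - x^(r+2)) := mul_pos (by linarith) (by linarith)
    have h4 : (1 - x) * 1 < (1 - x) * ((∑ j ∈ range (r + 2), x ^ j) + (∑ j ∈ range (r + 3), x ^ j)) := by
      rw [mul_add, e1, e2]
      have : x ^ (r + 2 + 1) = x^(r+2) * x := pow_succ _ _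
      have h5 : x ^ (r + 1 + 1) = x ^ (r+2) := rfl
      rw [this, h5]; nlinarith
    exact lt_of_mul_lt_mul_left h4 hpos.le
  have hGG0 : GG 1 0 x = 1 := GG_zero_right _ _
  have hGG1 : GG 1 1 x = 2 + x := by
    simp [GG, Finset.sum_range_succ]; ring
  have hstep : ∀ r : ℕ, GG 1 (r+2) x = GG 1 r x + ((∑ j ∈ range (r + 2), x ^ j) + (∑ j ∈ range (r + 3), x ^ j)) := by
    intro r
    rw [show (r+2) = (r+1)+1 from rfl, show (1:ℕ) = 0 + 1 from rfl, GG_succ, GG_succ]
    simp only [GG]
    ring
  have hB : ∀ r, B 0 (r+2) = B 0 r + 1 := by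
    intro r; simp only [B]; omega
  intro r
  induction r using Nat.twoStepInduction with
  | zero => 
    rw [show (0:ℕ) + 1 = 1 from rfl, hGG1]
    simp [B]; linarith
  | one =>
    rw [hstep 0, hB 0, hGG0]
    have := hS 0
    have hB0 : B 0 0 = 1 := by simp [B]
    rw [hB0]
    push_cast
    linarith
  | more r ih1 ih2 =>
    rw [hstep (r+1), hB (r+1)]
    have := hS (r+1)
    push_cast
    linarith

lemma real_bound (x : ℝ) (h1 : -1 < x) (h2 : x < 1) :
    ∀ D r : ℕ, ((B D (r+1) : ℕ) : ℝ) < GG (D+1) (r+1) x := by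
  intro D
  induction D with
  | zero => exact real_base x h1 h2
  | succ D ih =>
    intro r
    induction r with
    | zero =>
      rw [B_succ, GG_succ, GG_zero_right]
      have := ih 0
      have h3 : B (D+1) 0 = 1 := by simp [B]
      rw [h3]; push_cast
      linarith
    | succ r ihr =>
      rw [B_succ, GG_succ]
      have := ih (r+1)
      push_cast
      linarith

lemma abs_im_pow (x : ℂ) (hx : 0 ≤ x.im) (n : ℕ) : |(x ^ (n+1)).im| ≤ (n+1) * ‖x‖ ^ n * x.im := by
  induction n with
  | zero => simp [abs_of_nonneg hx]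
  | succ n ih =>
    rw [pow_succ, Complex.mul_im]
    have h1 : |(x ^ (n+1)).re| ≤ ‖x‖ ^ (n+1) := by
      rw [← norm_pow]; exact Complex.abs_re_le_norm _
    have h2 : |x.re| ≤ ‖x‖ := Complex.abs_re_le_norm _
    have hnn : 0 ≤ ‖x‖ := norm_nonneg _
    calc |(x ^ (n+1)).re * x.im + (x ^ (n+1)).im * x.re|
        ≤ |(x ^ (n+1)).re * x.im| + |(x ^ (n+1)).im * x.re| := abs_add_le _ _
      _ = |(x ^ (n+1)).re| * x.im + |(x ^ (n+1)).im| * |x.re| := by
          rw [abs_mul, abs_mul, abs_of_nonneg hx]
      _ ≤ ‖x‖ ^ (n+1) * x.im + ((n+1) * ‖x‖ ^ n * x.im) * ‖x‖ := by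
          apply add_le_add
          · exact mul_le_mul_of_nonneg_right h1 hx
          · exact mul_le_mul ih h2 (abs_nonneg _) (by positivity)
      _ = ((n + 1 : ℕ) + 1) * ‖x‖ ^ (n+1) * x.im := by push_cast; ring

/-- auxiliary real function -/
def gfun (p : ℝ) (r : ℕ) : ℝ := (r + 1) * (1 - p ^ r) - (1 - p ^ 2) * ∑ k ∈ range r, ((k:ℝ) + 1) * p ^ k

lemma hfun_nonneg (p : ℝ) (h0 : 0 ≤ p) (r : ℕ) : 0 ≤ 1 - (r + 1) * p ^ r + r * p ^ (r + 1) := by
  induction r with
  | zero => simp
  | succ r ih =>
    have : 1 - ((r + 1 : ℕ) + 1) * p ^ (r + 1) + (r + 1 : ℕ) * p ^ (r + 1 + 1)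
        = (1 - (r + 1) * p ^ r + r * p ^ (r + 1)) + (r + 1) * p ^ r * (1 - p)^2 := by
      push_cast; ring
    rw [this]; positivity

lemma gfun_pos (p : ℝ) (h0 : 0 ≤ p) (h1 : p < 1) (r : ℕ) : 0 < gfun p (r + 1) := by
  induction r with
  | zero =>
    have : gfun p (0 + 1) = (1 - p)^2 := by
      simp [gfun]; ring
    rw [this]
    have : 0 < 1 - p := by linarith
    positivity
  | succ r ih =>
    have : gfun p (r + 1 + 1) = gfun p (r + 1) + (1 - ((r + 2 : ℕ) + 1) * p ^ (r+2) + (r + 2 : ℕ) * p ^ (r + 2 + 1)) := by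
      simp only [gfun, Finset.sum_range_succ]
      push_cast; ring
    rw [this]
    have := hfun_nonneg p h0 (r+2)
    linarith

lemma im_formula (x : ℂ) (r : ℕ) :
    Complex.normSq (1 - x) * (GG 1 r x).im =
      (r + 1) * x.im - (x ^ (r+1)).im - (1 - ‖x‖^2) * ∑ k ∈ range r, (x ^ (k+1)).im := by
  have hgeom : ∀ n : ℕ, Complex.normSq (1 - x) * (∑ j ∈ range (n + 1), x ^ j).im
      = x.im - (x ^ (n+1)).im + ‖x‖^2 * (x ^ n).im := by
    intro n
    have e1 := geom_mul n x
    have e2 : ((Complex.normSq (1 - x) : ℝ) : ℂ) * (∑ j ∈ range (n + 1), x ^ j)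
        = 1 - (starRingEnd ℂ) x - x^(n+1) + ((‖x‖^2 : ℝ) : ℂ) * x ^ n := by
      have h1 : ((Complex.normSq (1 - x) : ℝ) : ℂ) = (1 - x) * (starRingEnd ℂ) (1 - x) :=
        (Complex.mul_conj _).symm
      have h2 : ((‖x‖^2 : ℝ) : ℂ) = x * (starRingEnd ℂ) x := by
        rw [Complex.mul_conj, Complex.normSq_eq_norm_sq]
      rw [h1, h2, map_sub, map_one]
      linear_combination (1 - (starRingEnd ℂ) x) * e1
    have e3 := congrArg Complex.im e2
    rw [Complex.im_ofReal_mul, Complex.add_im, Complex.im_ofReal_mul, Complex.sub_im, Complex.sub_im,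
      Complex.one_im, Complex.conj_im] at e3
    rw [e3]; ring
  induction r with
  | zero => simp [GG]
  | succ r ih =>
    have : GG 1 (r+1) x = GG 1 r x + ∑ j ∈ range (r + 1 + 1), x ^ j := by
      simp only [GG]
    rw [this, Complex.add_im, mul_add, ih, hgeom (r+1), Finset.sum_range_succ]
    push_cast
    ring


lemma im_base_pos (x : ℂ) (hx : 0 < x.im) (h1 : ‖x‖ < 1) (r : ℕ) : 0 < (GG 1 (r+1) x).im := by
  have hf := im_formula x (r+1)
  have hns : 0 < Complex.normSq (1 - x) := by
    rw [Complex.normSq_pos]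
    intro h
    have := congrArg Complex.im h
    simp at this
    exact hx.ne' this
  have hg := gfun_pos ‖x‖ (norm_nonneg _) h1 r
  have hnn : 0 ≤ ‖x‖ := norm_nonneg _
  have h2 : (x ^ (r+1+1)).im ≤ ((r + 1 : ℕ) + 1) * ‖x‖ ^ (r+1) * x.im := by
    have := abs_im_pow x hx.le (r+1)
    exact (le_abs_self _).trans this
  have h3 : ∑ k ∈ range (r+1), (x ^ (k+1)).im ≤ ∑ k ∈ range (r+1), ((k:ℝ) + 1) * ‖x‖ ^ k * x.im := by
    apply Finset.sum_le_sum
    intro k _
    exact (le_abs_self _).trans (abs_im_pow x hx.le k)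
  have h4 : (1 - ‖x‖^2) * ∑ k ∈ range (r+1), (x ^ (k+1)).im
      ≤ (1 - ‖x‖^2) * ∑ k ∈ range (r+1), ((k:ℝ) + 1) * ‖x‖ ^ k * x.im := by
    apply mul_le_mul_of_nonneg_left h3
    nlinarith
  have h5 : x.im * gfun ‖x‖ (r+1) ≤ Complex.normSq (1 - x) * (GG 1 (r+1) x).im := by
    rw [hf]
    have : x.im * gfun ‖x‖ (r+1) = ((r+1 : ℕ) + 1) * x.im - ((r + 1 : ℕ) + 1) * ‖x‖ ^ (r+1) * x.im
        - (1 - ‖x‖^2) * ∑ k ∈ range (r+1), ((k:ℝ) + 1) * ‖x‖ ^ k * x.im := by
      rw [← Finset.sum_mul]
      unfold gfun
      ring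
    rw [this]
    linarith
  have h6 : 0 < x.im * gfun ‖x‖ (r+1) := mul_pos hx hg
  by_contra hcon
  push Not at hcon
  have : Complex.normSq (1 - x) * (GG 1 (r+1) x).im ≤ 0 := mul_nonpos_of_nonneg_of_nonpos hns.le hcon
  linarith

lemma im_pos (x : ℂ) (hx : 0 < x.im) (h1 : ‖x‖ < 1) (n r : ℕ) : 0 < (GG (n+1) (r+1) x).im := by
  induction n generalizing r with
  | zero => exact im_base_pos x hx h1 r
  | succ n ih =>
    induction r with
    | zero =>
      rw [GG_succ, GG_zero_right, Complex.add_im, Complex.one_im, zero_add]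
      exact ih 0
    | succ r ihr =>
      rw [GG_succ, Complex.add_im]
      have := ih (r+1)
      linarith

lemma GG_conj (x : ℂ) (n r : ℕ) : GG n r ((starRingEnd ℂ) x) = (starRingEnd ℂ) (GG n r x) := by
  induction n generalizing r with
  | zero => simp [GG]
  | succ n ih =>
    induction r with
    | zero => simp [GG_zero_right]
    | succ r ihr => simp [GG_succ, ih, ihr]

lemma GG_ne (x : ℂ) (h1 : ‖x‖ < 1) (D r N : ℕ) (hN : N ≤ B D (r+1)) : GG (D+1) (r+1) x ≠ N := by
  rcases lt_trichotomy x.im 0 with him | him | him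
  · intro h
    have h2 := im_pos ((starRingEnd ℂ) x) (by simpa using him) (by simpa using h1) D r
    rw [GG_conj, h] at h2
    simp at h2
  · have hx : x = ((x.re : ℝ) : ℂ) := by
      apply Complex.ext <;> simp [him]
    have habs : |x.re| < 1 := lt_of_le_of_lt (Complex.abs_re_le_norm x) h1
    have h3 := real_bound x.re (abs_lt.mp habs).1 (abs_lt.mp habs).2 D r
    intro h
    rw [hx, ← GG_cast] at h
    have h4 : GG (D+1) (r+1) x.re = (N:ℝ) := by exact_mod_cast h
    rw [h4] at h3
    have : B D (r+1) < N := by exact_mod_cast h3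
    omega
  · intro h
    have h2 := im_pos x him h1 D r
    rw [h] at h2
    simp at h2

/-- the H-polynomial of the uniform matroid -/
def PU (n r : ℕ) (z : ℂ) : ℂ := ∑ i ∈ range (r + 1), ((n + i).choose i : ℂ) * z ^ i

lemma PU_eq (n r : ℕ) (z : ℂ) (hz : z ≠ 0) : PU n r z = z ^ r * GG n r z⁻¹ := by
  induction n generalizing r with
  | zero =>
    simp only [PU, GG, Nat.zero_add, Nat.choose_self, Nat.cast_one, one_mul]
    rw [Finset.mul_sum, ← Finset.sum_range_reflect]
    apply Finset.sum_congr rfl
    intro j hj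
    rw [Finset.mem_range] at hj
    have h1 : r + 1 - 1 - j = r - j := by omega
    rw [h1, inv_pow, ← div_eq_mul_inv, eq_div_iff (pow_ne_zero _ hz), ← pow_add]
    congr 1; omega
  | succ n ih =>
    induction r with
    | zero => simp [PU, GG_zero_right]
    | succ r ihr =>
      have h1 : PU (n+1) (r+1) z = z * PU (n+1) r z + PU n (r+1) z := by
        unfold PU
        rw [Finset.sum_range_succ' _ (r+1), Finset.sum_range_succ' _ (r+1), Finset.mul_sum]
        have : ∀ i : ℕ, ((n + 1 + (i+1)).choose (i+1) : ℂ) * z^(i+1)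
            = z * (((n+1+i).choose i : ℂ) * z^i) + ((n + (i+1)).choose (i+1) : ℂ) * z^(i+1) := by
          intro i
          have h2 : (n + 1 + (i+1)).choose (i+1) = (n+1+i).choose i + (n + (i+1)).choose (i+1) := by
            have := Nat.choose_succ_succ (n+1+i) i
            rw [show n + 1 + (i+1) = (n+1+i)+1 from rfl, this]
            congr 2; omega
          rw [h2]; push_cast; ring
        rw [Finset.sum_congr rfl (fun i _ => this i), Finset.sum_add_distrib]
        simp; ring
      rw [h1, ihr, ih (r+1), GG_succ]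
      ring

lemma GG_ne_zero (x : ℂ) (h1 : ‖x‖ < 1) (n r : ℕ) : GG n r x ≠ 0 := by
  cases n with
  | zero =>
    intro h
    have h2 := geom_mul r x
    have h3 : (∑ j ∈ range (r + 1), x ^ j) = 0 := by simpa [GG] using h
    rw [h3, mul_zero] at h2
    have h4 : ‖x ^ (r+1)‖ < 1 := by
      rw [norm_pow]; exact pow_lt_one₀ (norm_nonneg _) h1 (by omega)
    have h5 : x^(r+1) = 1 := by linear_combination h2
    rw [h5] at h4; simp at h4
  | succ n =>
    cases r with
    | zero => rw [GG_zero_right]; exact one_ne_zero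
    | succ r =>
      have := GG_ne x h1 n r 0 (Nat.zero_le _)
      simpa using this

lemma PU_ne_zero (n r : ℕ) (z : ℂ) (hz : 1 < ‖z‖) : PU n r z ≠ 0 := by
  have hz0 : z ≠ 0 := by
    intro h; rw [h] at hz; simp at hz; linarith
  rw [PU_eq n r z hz0]
  apply mul_ne_zero (pow_ne_zero _ hz0)
  apply GG_ne_zero
  rw [norm_inv]
  exact inv_lt_one_of_one_lt₀ hz

lemma PU_sub_ne_zero (D r N : ℕ) (hN : N ≤ B D (r+1)) (z : ℂ) (hz : 1 < ‖z‖) :
    PU (D+1) (r+1) z - N * z ^ (r+1) ≠ 0 := by
  have hz0 : z ≠ 0 := by
    intro h; rw [h] at hz; simp at hz; linarith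
  rw [PU_eq (D+1) (r+1) z hz0]
  have h1 : z ^ (r+1) * GG (D+1) (r+1) z⁻¹ - N * z ^ (r+1) = z ^ (r+1) * (GG (D+1) (r+1) z⁻¹ - N) := by ring
  rw [h1]
  apply mul_ne_zero (pow_ne_zero _ hz0)
  apply sub_ne_zero_of_ne
  apply GG_ne _ _ _ _ _ hN
  rw [norm_inv]
  exact inv_lt_one_of_one_lt₀ hz

lemma binom_identity (n r : ℕ) (z : ℂ) :
    ∑ k ∈ range (r+1), ((r + n + 1).choose k : ℂ) * z ^ k * (1 - z) ^ (r - k) = PU n r z := by
  induction r with
  | zero => simp [PU]
  | succ r ih =>
    have h1 : PU n (r+1) z = PU n r z + ((n + (r+1)).choose (r+1) : ℂ) * z^(r+1) := by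
      unfold PU; rw [Finset.sum_range_succ _ (r+1)]
    rw [h1, ← ih, Finset.sum_range_succ']
    have h2 : ∀ k ∈ range (r+1), ((r + 1 + n + 1).choose (k+1) : ℂ) * z ^ (k+1) * (1 - z) ^ (r + 1 - (k+1))
        = z * (((r + n + 1).choose k : ℂ) * z ^ k * (1 - z) ^ (r - k))
          + ((r + n + 1).choose (k+1) : ℂ) * z ^ (k+1) * (1 - z) ^ (r + 1 - (k+1)) := by
      intro k _
      have h3 : (r + 1 + n + 1).choose (k+1) = (r + n + 1).choose k + (r + n + 1).choose (k+1) := by
        rw [show r + 1 + n + 1 = (r + n + 1) + 1 by omega, Nat.choose_succ_succ]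
      rw [h3, show r + 1 - (k+1) = r - k by omega]
      push_cast; ring
    rw [Finset.sum_congr rfl h2, Finset.sum_add_distrib, ← Finset.mul_sum]
    have h4 : ∑ k ∈ range (r+1), ((r + n + 1).choose (k+1) : ℂ) * z ^ (k+1) * (1 - z) ^ (r + 1 - (k+1))
        + ((r + 1 + n + 1).choose 0 : ℂ) * z ^ 0 * (1 - z) ^ (r + 1 - 0)
        = ∑ k ∈ range (r+1+1), ((r + n + 1).choose k : ℂ) * z ^ k * (1 - z) ^ (r + 1 - k) := by
      rw [Finset.sum_range_succ' _ (r+1)]
      simp
    have h5 : ∑ k ∈ range (r+1+1), ((r + n + 1).choose k : ℂ) * z ^ k * (1 - z) ^ (r + 1 - k)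
        = (1 - z) * (∑ k ∈ range (r+1), ((r + n + 1).choose k : ℂ) * z ^ k * (1 - z) ^ (r - k))
          + ((n + (r+1)).choose (r+1) : ℂ) * z^(r+1) := by
      rw [Finset.sum_range_succ _ (r+1), Finset.mul_sum]
      congr 1
      · apply Finset.sum_congr rfl
        intro k hk
        rw [Finset.mem_range] at hk
        rw [show r + 1 - k = (r - k) + 1 by omega, pow_succ]
        ring
      · rw [show r + n + 1 = n + (r+1) by omega]
        simp
    rw [add_assoc, h4, h5]
    ring

end Analysis

end Pool.Agent.LibPavingRoots
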